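import Mathlib
import Pool.Agent.Helper38.TM.Defs
import Pool.Agent.Helper38.TW.SqCard
import Pool.Agent.Helper38.TW.FExists

/-!
# TM, leaf A7 (half): the quartic of a split cubic

`F` is divisible by `q_i = a_i τ X² + e_i`, `i = 1, 2`. The `u` with given descent data for `F`: `q_i` is a constant times a product of irreducible factors of `F`, so `q_i(u) q_i(u')` is a rational square; for the integers `v = τ u²` this says that they are congruent modulo squares of `ℚ[X]/(X (a₁ X + e₁) (a₂ X + e₂))`, and `sqmod_card` applies.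
-/

set_option autoImplicit false

namespace Pool.Agent.Helper5.TM

open Finset Polynomial Pool.Agent.Helper38.TW Pool.Agent.Helper38.TM

/-- a divisor of a product of irreducible polynomials is a constant times a subproduct -/
private theorem a7_sub {ι : Type} [DecidableEq ι] (G : ι → ℚ[X]) (hG : ∀ i, Irreducible (G i))
    (s : Finset ι) : ∀ q : ℚ[X], q ∣ ∏ i ∈ s, G i →
      ∃ L : Finset ι, L ⊆ s ∧ Associated q (∏ i ∈ L, G i) := by
  induction s using Finset.induction_on with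
  | empty =>
    intro q hq
    rw [Finset.prod_empty] at hq
    refine ⟨∅, Finset.Subset.refl _, ?_⟩
    rw [Finset.prod_empty]
    exact associated_one_iff_isUnit.2 (isUnit_of_dvd_one hq)
  | insert a s ha ih =>
    intro q hq
    rw [Finset.prod_insert ha] at hq
    by_cases h : G a ∣ q
    · obtain ⟨r, rfl⟩ := h
      have h1 : r ∣ ∏ i ∈ s, G i := (mul_dvd_mul_iff_left (hG a).ne_zero).1 hq
      obtain ⟨L, hL, hr⟩ := ih r h1
      refine ⟨insert a L, Finset.insert_subset_insert a hL, ?_⟩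
      rw [Finset.prod_insert (fun h => ha (hL h))]
      exact hr.mul_left (G a)
    · have h1 : IsCoprime (G a) q := (hG a).coprime_iff_not_dvd.2 h
      obtain ⟨L, hL, hr⟩ := ih q (h1.symm.dvd_of_dvd_mul_left hq)
      exact ⟨L, hL.trans (Finset.subset_insert a s), hr⟩

private theorem a7_sqmod {g : ℤ[X]} (hg : g.natDegree = 1) {x x' : ℤ} {s : ℚ}
    (h : ((g.eval x : ℤ) : ℚ) * ((g.eval x' : ℤ) : ℚ) = s ^ 2) :
    SqMod (g.map (Int.castRingHom ℚ)) x x' := by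
  obtain ⟨c, e, hge⟩ : ∃ c e : ℤ, g = C c * X + C e := ⟨g.coeff 1, g.coeff 0,
    eq_X_add_C_of_natDegree_le_one hg.le⟩
  have hc : c ≠ 0 := by
    rintro rfl
    rw [hge] at hg
    simp at hg
  have hcQ : (c : ℚ) ≠ 0 := by exact_mod_cast hc
  have h1 : ((c : ℚ) * x + e) * ((c : ℚ) * x' + e) = s ^ 2 := by
    rw [hge] at h
    simp only [eval_add, eval_mul, eval_C, eval_X] at h
    push_cast at h
    exact h
  refine ⟨C (s / c), ?_⟩
  have h3 : g.map (Int.castRingHom ℚ) = C (c : ℚ) * (X - C (-(e : ℚ) / c)) := by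
    rw [hge]
    simp only [Polynomial.map_add, Polynomial.map_mul, Polynomial.map_C, Polynomial.map_X]
    rw [mul_sub, ← C_mul]
    have h4 : (c : ℚ) * (-(e : ℚ) / c) = -e := by field_simp
    rw [h4, C_neg]
    simp
  rw [h3]
  have hu : IsUnit (C (c : ℚ)) := Polynomial.isUnit_C.mpr (isUnit_iff_ne_zero.mpr hcQ)
  rw [hu.mul_left_dvd, dvd_iff_isRoot, IsRoot.def]
  simp only [eval_sub, eval_mul, eval_C, eval_X, eval_pow]
  have h4 : ((x : ℚ) - -(e : ℚ) / c) * ((x' : ℚ) - -(e : ℚ) / c) =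
      ((c : ℚ) * x + e) * ((c : ℚ) * x' + e) / (c : ℚ) ^ 2 := by
    field_simp
    ring
  rw [h4, h1]
  field_simp
  ring

/-- the values of a divisor of `F` at two points with the same descent data -/
private theorem a7_val {F : ℤ[X]} {m : ℕ} (dF : FData F (Fin m)) {q : ℤ[X]} (hq : q ∣ F)
    (τ : Fin m → ℤ) (E : Fin m → ℕ) {u u' : ℤ}
    (hu : ∀ k, ∃ w : ℤ, w ≠ 0 ∧ (dF.g k).eval u = τ k * E k * w ^ 2)
    (hu' : ∀ k, ∃ w : ℤ, w ≠ 0 ∧ (dF.g k).eval u' = τ k * E k * w ^ 2) :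
    ∃ s : ℚ, ((q.eval u : ℤ) : ℚ) * ((q.eval u' : ℤ) : ℚ) = s ^ 2 := by
  have hdvd : q.map (Int.castRingHom ℚ) ∣ ∏ i, (dF.g i).map (Int.castRingHom ℚ) := by
    have h1 : q.map (Int.castRingHom ℚ) ∣ F.map (Int.castRingHom ℚ) :=
      Polynomial.map_dvd (Int.castRingHom ℚ) hq
    have h2 := congrArg (Polynomial.map (Int.castRingHom ℚ)) dF.fac
    rw [Polynomial.map_mul, Polynomial.map_mul, Polynomial.map_C, Polynomial.map_C,
      Polynomial.map_prod] at h2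
    have hc : IsUnit (C ((Int.castRingHom ℚ) dF.c)) :=
      Polynomial.isUnit_C.mpr (isUnit_iff_ne_zero.mpr (by simpa using dF.c_ne))
    have h3 : q.map (Int.castRingHom ℚ) ∣
        C ((Int.castRingHom ℚ) dF.c) * ∏ i, (dF.g i).map (Int.castRingHom ℚ) := by
      rw [← h2]
      exact h1.mul_left _
    exact (hc.dvd_mul_left).1 h3
  obtain ⟨L, -, hL⟩ := a7_sub (fun i => (dF.g i).map (Int.castRingHom ℚ)) dF.irr univ _ hdvd
  obtain ⟨v, hv⟩ := hL.symm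
  obtain ⟨r, -, hr⟩ := Polynomial.isUnit_iff.1 v.isUnit
  have hev : ∀ z : ℤ, ((q.eval z : ℤ) : ℚ) = (∏ i ∈ L, (((dF.g i).eval z : ℤ) : ℚ)) * r := by
    intro z
    have h1 := congrArg (Polynomial.eval (z : ℚ)) hv
    rw [← hr, eval_mul, eval_C, eval_prod] at h1
    have h2 : ∀ p : ℤ[X], (p.map (Int.castRingHom ℚ)).eval (z : ℚ) = ((p.eval z : ℤ) : ℚ) := by
      intro p
      exact Polynomial.eval_intCast_map (Int.castRingHom ℚ) p z
    rw [h2, Finset.prod_congr rfl (fun i _ => h2 (dF.g i))] at h1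
    exact h1.symm
  choose w hw0 hw using hu
  choose w' hw0' hw' using hu'
  refine ⟨r * ∏ i ∈ L, ((τ i : ℚ) * E i * (w i * w' i)), ?_⟩
  rw [hev u, hev u', mul_pow, ← Finset.prod_pow]
  have h1 : (∏ i ∈ L, (((dF.g i).eval u : ℤ) : ℚ)) * ∏ i ∈ L, (((dF.g i).eval u' : ℤ) : ℚ) =
      ∏ i ∈ L, ((τ i : ℚ) * E i * (w i * w' i)) ^ 2 := by
    rw [← Finset.prod_mul_distrib]
    refine Finset.prod_congr rfl fun i _ => ?_
    rw [hw i, hw' i]
    push_cast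
    ring
  rw [← h1]
  ring

theorem tuple_quartic {F : ℤ[X]} {m : ℕ} (dF : FData F (Fin m)) (a₁ e₁ a₂ e₂ τ : ℤ)
    (ha₁ : a₁ ≠ 0) (he₁ : e₁ ≠ 0) (ha₂ : a₂ ≠ 0) (he₂ : e₂ ≠ 0) (hτ : τ ≠ 0)
    (hx : a₁ * e₂ - a₂ * e₁ ≠ 0) (h₁ : (C (a₁ * τ) * X ^ 2 + C e₁ : ℤ[X]) ∣ F)
    (h₂ : (C (a₂ * τ) * X ^ 2 + C e₂ : ℤ[X]) ∣ F) : ∃ N : ℕ, TupleBound dF N := by
  classical
  obtain ⟨g₁, hg₁⟩ : ∃ g : ℤ[X], g = C a₁ * X + C e₁ := ⟨_, rfl⟩
  obtain ⟨g₂, hg₂⟩ : ∃ g : ℤ[X], g = C a₂ * X + C e₂ := ⟨_, rfl⟩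
  have hd₁ : g₁.natDegree = 1 := by
    rw [hg₁]
    exact natDegree_linear ha₁
  have hd₂ : g₂.natDegree = 1 := by
    rw [hg₂]
    exact natDegree_linear ha₂
  have hm₁ : g₁.map (Int.castRingHom ℚ) = C (a₁ : ℚ) * X + C (e₁ : ℚ) := by
    rw [hg₁]
    simp
  have hm₂ : g₂.map (Int.castRingHom ℚ) = C (a₂ : ℚ) * X + C (e₂ : ℚ) := by
    rw [hg₂]
    simp
  have he₁Q : (e₁ : ℚ) ≠ 0 := by exact_mod_cast he₁
  have he₂Q : (e₂ : ℚ) ≠ 0 := by exact_mod_cast he₂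
  have ha₁Q : (a₁ : ℚ) ≠ 0 := by exact_mod_cast ha₁
  have ha₂Q : (a₂ : ℚ) ≠ 0 := by exact_mod_cast ha₂
  have hxQ : (a₁ : ℚ) * e₂ - a₂ * e₁ ≠ 0 := by exact_mod_cast hx
  have hc₁ : IsCoprime (X : ℚ[X]) (g₁.map (Int.castRingHom ℚ)) := by
    refine ⟨-(C ((e₁ : ℚ)⁻¹) * C (a₁ : ℚ)), C ((e₁ : ℚ)⁻¹), ?_⟩
    have h1 : (C ((e₁ : ℚ)⁻¹) : ℚ[X]) * C (e₁ : ℚ) = 1 := by
      rw [← C_mul, inv_mul_cancel₀ he₁Q, C_1]
    rw [hm₁]
    linear_combination h1
  have hc₂ : IsCoprime (X : ℚ[X]) (g₂.map (Int.castRingHom ℚ)) := by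
    refine ⟨-(C ((e₂ : ℚ)⁻¹) * C (a₂ : ℚ)), C ((e₂ : ℚ)⁻¹), ?_⟩
    have h1 : (C ((e₂ : ℚ)⁻¹) : ℚ[X]) * C (e₂ : ℚ) = 1 := by
      rw [← C_mul, inv_mul_cancel₀ he₂Q, C_1]
    rw [hm₂]
    linear_combination h1
  have hc₃ : IsCoprime (g₁.map (Int.castRingHom ℚ)) (g₂.map (Int.castRingHom ℚ)) := by
    have h1 : (C (((a₁ : ℚ) * e₂ - a₂ * e₁)⁻¹) : ℚ[X]) * C ((a₁ : ℚ) * e₂ - a₂ * e₁) = 1 := by
      rw [← C_mul, inv_mul_cancel₀ hxQ, C_1]
    refine ⟨-(C (((a₁ : ℚ) * e₂ - a₂ * e₁)⁻¹) * C (a₂ : ℚ)),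
      C (((a₁ : ℚ) * e₂ - a₂ * e₁)⁻¹) * C (a₁ : ℚ), ?_⟩
    rw [hm₁, hm₂, ← h1]
    simp only [C_sub, C_mul]
    ring
  have hirr : ∀ {g : ℤ[X]}, g.natDegree = 1 → Squarefree (g.map (Int.castRingHom ℚ)) := by
    intro g hg
    refine (Polynomial.irreducible_of_degree_eq_one ?_).squarefree
    rw [degree_map_eq_of_injective (Int.castRingHom ℚ).injective_int]
    exact (degree_eq_iff_natDegree_eq_of_pos Nat.one_pos).2 hg
  -- the cubic
  obtain ⟨h, hh⟩ : ∃ h : ℤ[X], h = X * (g₁ * g₂) := ⟨_, rfl⟩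
  have hmap : h.map (Int.castRingHom ℚ) =
      X * (g₁.map (Int.castRingHom ℚ) * g₂.map (Int.castRingHom ℚ)) := by
    rw [hh, Polynomial.map_mul, Polynomial.map_mul, Polynomial.map_X]
  have hg₁0 : g₁ ≠ 0 := by
    rintro h0
    rw [h0] at hd₁
    simp at hd₁
  have hg₂0 : g₂ ≠ 0 := by
    rintro h0
    rw [h0] at hd₂
    simp at hd₂
  have hdeg : h.natDegree = 3 := by
    rw [hh, natDegree_mul X_ne_zero (mul_ne_zero hg₁0 hg₂0), natDegree_mul hg₁0 hg₂0, natDegree_X,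
      hd₁, hd₂]
  have hcX : IsCoprime (X : ℚ[X])
      (g₁.map (Int.castRingHom ℚ) * g₂.map (Int.castRingHom ℚ)) := hc₁.mul_right hc₂
  have hsep : (h.map (Int.castRingHom ℚ)).Separable := by
    rw [PerfectField.separable_iff_squarefree, hmap, squarefree_mul_iff]
    refine ⟨hcX.isRelPrime, irreducible_X.squarefree, ?_⟩
    rw [squarefree_mul_iff]
    exact ⟨hc₃.isRelPrime, hirr hd₁, hirr hd₂⟩
  obtain ⟨N, hN⟩ := sqmod_card h hdeg hsep
  refine ⟨2 * N, fun τ' E S hS => ?_⟩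
  have h3 : (S.image (fun u => τ * u ^ 2)).card ≤ N := by
    refine hN _ ?_
    intro v hv v' hv'
    obtain ⟨u, hu, rfl⟩ := Finset.mem_image.1 hv
    obtain ⟨u', hu', rfl⟩ := Finset.mem_image.1 hv'
    rw [hmap]
    refine sqmod_mul hcX ?_ (sqmod_mul hc₃ ?_ ?_)
    · have h6 := sqmod_lin (g := (X : ℤ[X])) natDegree_X (m := τ) (x := τ * u ^ 2)
        (x' := τ * u' ^ 2) (u := u) (u' := u') (by rw [eval_X]) (by rw [eval_X])
      rwa [Polynomial.map_X] at h6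
    · obtain ⟨s, hs⟩ := a7_val dF h₁ τ' E (hS u hu) (hS u' hu')
      refine a7_sqmod hd₁ (s := s) ?_
      rw [← hs, hg₁]
      simp only [eval_add, eval_mul, eval_C, eval_X, eval_pow]
      push_cast
      ring
    · obtain ⟨s, hs⟩ := a7_val dF h₂ τ' E (hS u hu) (hS u' hu')
      refine a7_sqmod hd₂ (s := s) ?_
      rw [← hs, hg₂]
      simp only [eval_add, eval_mul, eval_C, eval_X, eval_pow]
      push_cast
      ring
  have h4 : S.card ≤ 2 * (S.image (fun u => τ * u ^ 2)).card := by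
    refine Finset.card_le_mul_card_image S 2 ?_
    intro v _
    by_cases hne : (S.filter (fun u => τ * u ^ 2 = v)).Nonempty
    · obtain ⟨u, hu⟩ := hne
      have hu1 := (Finset.mem_filter.1 hu).2
      have h5 : S.filter (fun u => τ * u ^ 2 = v) ⊆ {u, -u} := by
        intro w hw
        have hw1 := (Finset.mem_filter.1 hw).2
        have h6 : w ^ 2 = u ^ 2 := by
          apply mul_left_cancel₀ hτ
          rw [hw1, hu1]
        rcases sq_eq_sq_iff_eq_or_eq_neg.1 h6 with h7 | h7 <;> simp [h7]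
      exact (Finset.card_le_card h5).trans Finset.card_le_two
    · rw [Finset.not_nonempty_iff_eq_empty.1 hne]
      simp
  calc S.card ≤ 2 * (S.image (fun u => τ * u ^ 2)).card := h4
    _ ≤ 2 * N := Nat.mul_le_mul_left 2 h3

end Pool.Agent.Helper5.TM
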