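import Mathlib
import Pool.Agent.Helper38.TM.Defs
import Pool.Agent.Helper38.TW.SqCard
import Pool.Agent.Helper38.TW.FExists

/-!
# TM, leaf A2: the integers `x` with given descent data are bounded in number

If three of the `g_k` are linear, `h` their product: two such `x` are congruent modulo squares of `ℚ[X]/(h)`, and `sqmod_card` applies.
-/

set_option autoImplicit false

namespace Pool.Agent.Helper5.TM

open Finset Polynomial Pool.Agent.Helper38.TW Pool.Agent.Helper38.TM

private theorem a2_coprime {f : ℤ[X]} {ι : Type} [Fintype ι] [DecidableEq ι] (dt : FData f ι)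
    {i k : ι} (hik : i ≠ k) :
    IsCoprime ((dt.g i).map (Int.castRingHom ℚ)) ((dt.g k).map (Int.castRingHom ℚ)) := by
  obtain ⟨u, v, huv⟩ := dt.bez i k hik
  have hB : (dt.B : ℚ) ≠ 0 := by exact_mod_cast dt.B_ne
  have h := congrArg (Polynomial.map (Int.castRingHom ℚ)) huv
  simp only [Polynomial.map_add, Polynomial.map_mul, Polynomial.map_C] at h
  refine ⟨C ((dt.B : ℚ)⁻¹) * u.map (Int.castRingHom ℚ), C ((dt.B : ℚ)⁻¹) * v.map (Int.castRingHom ℚ), ?_⟩
  rw [mul_assoc, mul_assoc, ← mul_add, h, ← C_mul]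
  simp [hB]

theorem tuple_card (f : ℤ[X]) (n : ℕ) (dt : FData f (Fin n))
    (h3 : 3 ≤ (univ.filter (fun k => (dt.g k).natDegree = 1)).card) :
    ∃ N : ℕ, TupleBound dt N := by
  classical
  obtain ⟨T, hT, hT3⟩ := Finset.exists_subset_card_eq h3
  have hlin : ∀ k ∈ T, (dt.g k).natDegree = 1 := fun k hk => (Finset.mem_filter.1 (hT hk)).2
  obtain ⟨h, hh⟩ : ∃ h : ℤ[X], h = ∏ k ∈ T, dt.g k := ⟨_, rfl⟩
  have hmap : h.map (Int.castRingHom ℚ) = ∏ k ∈ T, (dt.g k).map (Int.castRingHom ℚ) := by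
    rw [hh, Polynomial.map_prod]
  have hdeg : h.natDegree = 3 := by
    rw [hh, natDegree_prod _ _ (fun k _ => dt.f1_g_ne k), Finset.sum_congr rfl hlin]
    simp [hT3]
  have hsep : (h.map (Int.castRingHom ℚ)).Separable := by
    rw [PerfectField.separable_iff_squarefree, hmap]
    apply Finset.squarefree_prod_of_pairwise_isCoprime
    · intro i _ k _ hik
      exact (a2_coprime dt hik).isRelPrime
    · intro i _
      exact (dt.irr i).squarefree
  obtain ⟨N, hN⟩ := sqmod_card h hdeg hsep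
  refine ⟨N, fun τ E S hS => hN S fun x hx x' hx' => ?_⟩
  rw [hmap]
  refine sqmod_prod _ _ (fun i _ k _ hik => a2_coprime dt hik) ?_
  intro k hk
  obtain ⟨u, -, hu⟩ := hS x hx k
  obtain ⟨u', -, hu'⟩ := hS x' hx' k
  exact sqmod_lin (hlin k hk) hu hu'

end Pool.Agent.Helper5.TM
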